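import Mathlib

set_option autoImplicit false

namespace Pool.Agent.H.MP_61152a_lc

/-- `bang φ ψ = [!φ]ψ`, `ask φ ψ = [?φ]ψ`, `res ψ = [!]ψ`, `ref ψ = [?]ψ`. -/
inductive Fm
  | atom (n : ℕ)
  | neg (φ : Fm)
  | and (φ ψ : Fm)
  | U (φ : Fm)
  | K (φ : Fm)
  | Q (φ : Fm)
  | R (φ : Fm)
  | bang (φ ψ : Fm)
  | ask (φ ψ : Fm)
  | res (φ : Fm)
  | ref (φ : Fm)

/-- Truth at `w` in the model with epistemic relation `a`, issue relation `b`, valuation `V`. -/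
def Sat {W : Type} (V : ℕ → W → Prop) : Fm → (W → W → Prop) → (W → W → Prop) → W → Prop
  | .atom n, _, _, w => V n w
  | .neg φ, a, b, w => ¬ Sat V φ a b w
  | .and φ ψ, a, b, w => Sat V φ a b w ∧ Sat V ψ a b w
  | .U φ, a, b, _ => ∀ v, Sat V φ a b v
  | .K φ, a, b, w => ∀ v, a w v → Sat V φ a b v
  | .Q φ, a, b, w => ∀ v, b w v → Sat V φ a b v
  | .R φ, a, b, w => ∀ v, a w v ∧ b w v → Sat V φ a b v
  | .bang φ ψ, a, b, w => Sat V ψ (fun s t => a s t ∧ (Sat V φ a b s ↔ Sat V φ a b t)) b w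
  | .ask φ ψ, a, b, w => Sat V ψ a (fun s t => b s t ∧ (Sat V φ a b s ↔ Sat V φ a b t)) w
  | .res φ, a, b, w => Sat V φ (fun s t => a s t ∧ b s t) b w
  | .ref φ, a, b, w => Sat V φ a (fun s t => a s t ∧ b s t) w

def Valid (φ : Fm) : Prop :=
  ∀ (W : Type) (a b : W → W → Prop), Equivalence a → Equivalence b → ∀ V w, Sat V φ a b w

def Fm.subst (σ : ℕ → Fm) : Fm → Fm
  | .atom n => σ n
  | .neg φ => .neg (φ.subst σ)
  | .and φ ψ => .and (φ.subst σ) (ψ.subst σ)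
  | .U φ => .U (φ.subst σ)
  | .K φ => .K (φ.subst σ)
  | .Q φ => .Q (φ.subst σ)
  | .R φ => .R (φ.subst σ)
  | .bang φ ψ => .bang (φ.subst σ) (ψ.subst σ)
  | .ask φ ψ => .ask (φ.subst σ) (ψ.subst σ)
  | .res φ => .res (φ.subst σ)
  | .ref φ => .ref (φ.subst σ)

def Fm.code : Fm → ℕ
  | .atom n => 11 * n
  | .neg φ => 11 * φ.code + 1
  | .and φ ψ => 11 * Nat.pair φ.code ψ.code + 2
  | .U φ => 11 * φ.code + 3
  | .K φ => 11 * φ.code + 4
  | .Q φ => 11 * φ.code + 5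
  | .R φ => 11 * φ.code + 6
  | .bang φ ψ => 11 * Nat.pair φ.code ψ.code + 7
  | .ask φ ψ => 11 * Nat.pair φ.code ψ.code + 8
  | .res φ => 11 * φ.code + 9
  | .ref φ => 11 * φ.code + 10

end Pool.Agent.H.MP_61152a_lc
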