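import Pool.Agent.H.MP_61152a_lc.A

set_option autoImplicit false

namespace Pool.Agent.H.MP_61152a_lc

abbrev Re (W : Type) := W → W → Prop

def Sem {W : Type} (V : ℕ → Re W → Re W → W → Prop) : Fm → Re W → Re W → W → Prop
  | .atom n, a, b, w => V n a b w
  | .neg φ, a, b, w => ¬ Sem V φ a b w
  | .and φ ψ, a, b, w => Sem V φ a b w ∧ Sem V ψ a b w
  | .U φ, a, b, _ => ∀ v, Sem V φ a b v
  | .K φ, a, b, w => ∀ v, a w v → Sem V φ a b v
  | .Q φ, a, b, w => ∀ v, b w v → Sem V φ a b v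
  | .R φ, a, b, w => ∀ v, a w v ∧ b w v → Sem V φ a b v
  | .bang φ ψ, a, b, w => Sem V ψ (fun s t => a s t ∧ (Sem V φ a b s ↔ Sem V φ a b t)) b w
  | .ask φ ψ, a, b, w => Sem V ψ a (fun s t => b s t ∧ (Sem V φ a b s ↔ Sem V φ a b t)) w
  | .res φ, a, b, w => Sem V φ (fun s t => a s t ∧ b s t) b w
  | .ref φ, a, b, w => Sem V φ a (fun s t => a s t ∧ b s t) w

variable {W X Θ : Type}

lemma sat_subst (V : ℕ → W → Prop) (σ : ℕ → Fm) (φ : Fm) :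
    Sat V (φ.subst σ) = Sem (fun n => Sat V (σ n)) φ := by
  induction φ <;> ext a b w <;> simp only [Fm.subst, Sat, Sem, *]

def Df (n : ℕ) (P : Re (Fin n) → Re (Fin n) → Fin n → Prop) : Prop :=
  ∃ ψ, ∀ a b w, Sat (fun k (w : Fin n) => k = w) ψ a b w ↔ P a b w

section
variable {n : ℕ} {P Q : Re (Fin n) → Re (Fin n) → Fin n → Prop}

lemma Df.neg (h : Df n P) : Df n fun a b w => ¬ P a b w :=
  let ⟨ψ, h⟩ := h; ⟨.neg ψ, fun a b w => not_congr (h a b w)⟩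

lemma Df.and (h : Df n P) (k : Df n Q) : Df n fun a b w => P a b w ∧ Q a b w :=
  let ⟨ψ, h⟩ := h; let ⟨φ, k⟩ := k; ⟨.and ψ φ, fun a b w => and_congr (h a b w) (k a b w)⟩

lemma Df.of (h : Df n P) (e : ∀ a b w, P a b w ↔ Q a b w) : Df n Q :=
  let ⟨ψ, h⟩ := h; ⟨ψ, fun a b w => (h a b w).trans (e a b w)⟩

lemma Df.const (c : Prop) : Df n fun _ _ _ => c := by
  have f : Df n fun _ _ _ => False := ⟨.and (.atom 0) (.neg (.atom 0)), fun a b w => by simp [Sat]⟩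
  by_cases h : c
  · exact f.neg.of (by simp [h])
  · exact f.of (by simp [h])

lemma Df.iff (h : Df n P) (c : Prop) : Df n fun a b w => P a b w ↔ c := by
  by_cases k : c
  · exact h.of (by simp [k])
  · exact h.neg.of (by simp [k])

lemma Df.all {T : Type} [Finite T] {P : T → Re (Fin n) → Re (Fin n) → Fin n → Prop}
    (h : ∀ t, Df n (P t)) : Df n fun a b w => ∀ t, P t a b w := by
  classical
  cases nonempty_fintype T
  suffices ∀ s : Finset T, Df n fun a b w => ∀ t ∈ s, P t a b w from (this .univ).of (by simp)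
  intro s
  induction s using Finset.induction_on with
  | empty => exact (Df.const True).of (by simp)
  | insert t s _ ih => exact ((h t).and ih).of (by simp)

lemma df (P : Re (Fin n) → Re (Fin n) → Fin n → Prop) : Df n P := by
  have e (u : Fin n) : Df n fun _ _ w => u = w := ⟨.atom u, fun a b w => Fin.val_inj⟩
  have k (u v : Fin n) : Df n fun a _ _ => a u v :=
    ⟨.U (.neg (.and (.atom u) (.K (.neg (.atom v))))), fun a b w => by simp [Sat, Fin.val_inj]⟩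
  have q (u v : Fin n) : Df n fun _ b _ => b u v :=
    ⟨.U (.neg (.and (.atom u) (.Q (.neg (.atom v))))), fun a b w => by simp [Sat, Fin.val_inj]⟩
  refine (Df.all fun z : Re (Fin n) × Re (Fin n) × Fin n => ((Df.const (P z.1 z.2.1 z.2.2)).and
    ((e z.2.2).and (Df.all fun u => Df.all fun v =>
      ((k u v).iff (z.1 u v)).and ((q u v).iff (z.2.1 u v))))).neg).neg.of fun a b w => ?_
  simp only [not_forall, not_not]
  refine ⟨fun ⟨⟨c, d, u⟩, h, i, j⟩ => ?_, fun h => ⟨(a, b, w), h, rfl, fun _ _ => ⟨.rfl, .rfl⟩⟩⟩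
  obtain rfl : a = c := funext₂ fun u v => propext (j u v).1
  obtain rfl : b = d := funext₂ fun u v => propext (j u v).2
  exact i ▸ h

end

def Ms (V : ℕ → Re W → Re W → W → Prop) (τ : W → Θ) : Fm → Re W → Re W → Prop
  | .atom n, a, b => ∀ u v, τ u = τ v → V n a b u → V n a b v
  | .neg φ, a, b => Ms V τ φ a b
  | .and φ ψ, a, b => Ms V τ φ a b ∧ Ms V τ ψ a b
  | .U φ, a, b => Ms V τ φ a b
  | .K φ, a, b => Ms V τ φ a b ∧ ∀ u v, τ u = τ v → Sem V (.K φ) a b u → Sem V (.K φ) a b v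
  | .Q φ, a, b => Ms V τ φ a b ∧ ∀ u v, τ u = τ v → Sem V (.Q φ) a b u → Sem V (.Q φ) a b v
  | .R φ, a, b => Ms V τ φ a b ∧ ∀ u v, τ u = τ v → Sem V (.R φ) a b u → Sem V (.R φ) a b v
  | .bang φ ψ, a, b => Ms V τ φ a b ∧ Ms V τ ψ (fun s t => a s t ∧ (Sem V φ a b s ↔ Sem V φ a b t)) b
  | .ask φ ψ, a, b => Ms V τ φ a b ∧ Ms V τ ψ a (fun s t => b s t ∧ (Sem V φ a b s ↔ Sem V φ a b t))
  | .res φ, a, b => Ms V τ φ (fun s t => a s t ∧ b s t) b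
  | .ref φ, a, b => Ms V τ φ a (fun s t => a s t ∧ b s t)

variable {V : ℕ → Re W → Re W → W → Prop} {τ : W → Θ} {φ : Fm} {a b : Re W}

lemma Ms.iff (h : Ms V τ φ a b) {u v : W} (e : τ u = τ v) : Sem V φ a b u ↔ Sem V φ a b v := by
  induction φ generalizing a b with
  | atom n => exact ⟨h _ _ e, h _ _ e.symm⟩
  | neg φ ih => exact not_congr (ih h)
  | and φ ψ ih ih' => exact and_congr (ih h.1) (ih' h.2)
  | U => rfl
  | K | Q | R => exact ⟨h.2 _ _ e, h.2 _ _ e.symm⟩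
  | bang _ _ _ ih | ask _ _ _ ih => exact ih h.2
  | res _ ih | ref _ ih => exact ih h

lemma Ms.mono {Θ' : Type} {τ' : W → Θ'} (k : ∀ u v, τ' u = τ' v → τ u = τ v) (h : Ms V τ φ a b) :
    Ms V τ' φ a b := by
  induction φ generalizing a b with
  | atom n => exact fun u v e => h u v (k u v e)
  | neg _ ih | U _ ih | res _ ih | ref _ ih => exact ih h
  | and _ _ ih ih' | bang _ _ ih ih' | ask _ _ ih ih' => exact ⟨ih h.1, ih' h.2⟩
  | K _ ih | Q _ ih | R _ ih => exact ⟨ih h.1, fun u v e => h.2 u v (k u v e)⟩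

lemma ms_ex (φ : Fm) (a b : Re W) : ∃ (Θ : Type) (_ : Finite Θ) (τ : W → Θ),
    Nat.card Θ ≤ 2 ^ (φ.code + 1) ∧ Ms V τ φ a b := by
  have two {φ ψ : Fm} {a b c d : Re W} {m : ℕ} (l : 11 * Nat.pair φ.code ψ.code + 2 ≤ m)
      (h : ∃ (Θ : Type) (_ : Finite Θ) (τ : W → Θ), Nat.card Θ ≤ 2 ^ (φ.code + 1) ∧ Ms V τ φ a b)
      (k : ∃ (Θ : Type) (_ : Finite Θ) (τ : W → Θ), Nat.card Θ ≤ 2 ^ (ψ.code + 1) ∧ Ms V τ ψ c d) :
      ∃ (Θ : Type) (_ : Finite Θ) (τ : W → Θ), Nat.card Θ ≤ 2 ^ (m + 1) ∧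
        Ms V τ φ a b ∧ Ms V τ ψ c d := by
    obtain ⟨Θ, _, τ, i, h⟩ := h
    obtain ⟨Θ', _, τ', j, k⟩ := k
    have := Nat.left_le_pair φ.code ψ.code
    have := Nat.right_le_pair φ.code ψ.code
    exact ⟨Θ × Θ', inferInstance, fun w => (τ w, τ' w), by
      rw [Nat.card_prod]
      exact (Nat.mul_le_mul i j).trans (by rw [← pow_add]; exact Nat.pow_le_pow_right two_pos (by omega)),
      h.mono fun _ _ => congrArg Prod.fst, k.mono fun _ _ => congrArg Prod.snd⟩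
  have one {φ : Fm} {a b : Re W} {m : ℕ} (l : φ.code < m) (P : W → Prop)
      (h : ∃ (Θ : Type) (_ : Finite Θ) (τ : W → Θ), Nat.card Θ ≤ 2 ^ (φ.code + 1) ∧ Ms V τ φ a b) :
      ∃ (Θ : Type) (_ : Finite Θ) (τ : W → Θ), Nat.card Θ ≤ 2 ^ (m + 1) ∧
        Ms V τ φ a b ∧ ∀ u v, τ u = τ v → P u → P v := by
    obtain ⟨Θ, _, τ, i, h⟩ := h
    exact ⟨Θ × Prop, inferInstance, fun w => (τ w, P w), by
      rw [Nat.card_prod, Nat.card_eq_fintype_card (α := Prop), Fintype.card_prop]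
      exact (Nat.mul_le_mul_right 2 i).trans
        (by rw [← pow_succ]; exact Nat.pow_le_pow_right two_pos (by omega)),
      h.mono fun _ _ => congrArg Prod.fst, fun _ _ e => (congrArg Prod.snd e).mp⟩
  induction φ generalizing a b with
  | atom n =>
    exact ⟨Prop, inferInstance, V n a b, by
      rw [Nat.card_eq_fintype_card, Fintype.card_prop]
      exact Nat.le_self_pow (by omega) 2, fun _ _ e => e.mp⟩
  | neg _ ih | U _ ih | res _ ih | ref _ ih =>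
    exact (one (by simp only [Fm.code]; omega) (fun _ => True) (ih _ _)).imp fun _ h =>
      h.imp fun _ h => h.imp fun _ h => ⟨h.1, h.2.1⟩
  | and _ _ ih ih' | bang _ _ ih ih' | ask _ _ ih ih' =>
    exact two (by simp only [Fm.code]; omega) (ih _ _) (ih' _ _)
  | K _ ih | Q _ ih | R _ ih => exact one (by simp only [Fm.code]; omega) _ (ih _ _)

structure Zig (a b : Re W) (τ : W → Θ) (c d : Re X) (π : X → W) : Prop where
  ec : Equivalence c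
  ed : Equivalence d
  z1 : ∀ k l : Prop, k ∨ l → ∀ x v, (k → a (π x) v) → (l → b (π x) v) →
    ∃ y, (k → c x y) ∧ (l → d x y) ∧ τ (π y) = τ v
  z2 : ∀ k l : Prop, k ∨ l → ∀ x y, (k → c x y) → (l → d x y) →
    ∃ v, (k → a (π x) v) ∧ (l → b (π x) v) ∧ τ (π y) = τ v
  z4 : ∀ u v, a u v ∨ b u v → ∃ x y, τ (π x) = τ u ∧ τ (π y) = τ v ∧ (c x y ↔ a u v) ∧ (d x y ↔ b u v)

abbrev Rp (Θ : Type) := Prop × Prop × Re Θ

def I (a b : Re W) (τ : W → Θ) (ρ : Rp Θ) (u v : W) : Prop :=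
  (ρ.1 → a u v) ∧ (ρ.2.1 → b u v) ∧ ρ.2.2 (τ u) (τ v)

def mt (ρ ρ' : Rp Θ) : Rp Θ := (ρ.1 ∨ ρ'.1, ρ.2.1 ∨ ρ'.2.1, fun x y => ρ.2.2 x y ∧ ρ'.2.2 x y)

lemma I_mt (ρ ρ' : Rp Θ) : (fun s t => I a b τ ρ s t ∧ I a b τ ρ' s t) = I a b τ (mt ρ ρ') := by
  ext s t; simp only [I, mt]; tauto

lemma I_cut (ρ : Rp Θ) {P : W → Prop} (S : Θ → Prop) (h : ∀ w, P w ↔ S (τ w)) :
    (fun s t => I a b τ ρ s t ∧ (P s ↔ P t)) =
      I a b τ (ρ.1, ρ.2.1, fun x y => ρ.2.2 x y ∧ (S x ↔ S y)) := by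
  ext s t; simp only [I, h, and_assoc]

variable {c d : Re X} {π : X → W}

lemma Zig.box (Z : Zig a b τ c d π) {ρ : Rp Θ} (g : ρ.1 ∨ ρ.2.1) {P : W → Prop}
    (m : ∀ {u v}, τ u = τ v → (P u ↔ P v)) (x : X) :
    (∀ y, I c d (τ ∘ π) ρ x y → P (π y)) ↔ ∀ v, I a b τ ρ (π x) v → P v := by
  refine ⟨fun h v ⟨i, j, k⟩ => ?_, fun h y ⟨i, j, k⟩ => ?_⟩
  · obtain ⟨y, i, j, e⟩ := Z.z1 _ _ g x v i j
    exact (m e).1 (h y ⟨i, j, by rwa [← e] at k⟩)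
  · obtain ⟨v, i, j, e⟩ := Z.z2 _ _ g x y i j
    exact (m e).2 (h v ⟨i, j, e ▸ k⟩)

lemma Zig.inj (Z : Zig a b τ c d π) {ρ ρ' : Rp Θ} (g : ρ.1 ∨ ρ.2.1) (g' : ρ'.1 ∨ ρ'.2.1)
    (h : I c d (τ ∘ π) ρ = I c d (τ ∘ π) ρ') : I a b τ ρ = I a b τ ρ' := by
  ext u v
  by_cases k : a u v ∨ b u v
  · obtain ⟨x, y, i, j, k, l⟩ := Z.z4 u v k
    simpa only [I, Function.comp, i, j, k, l, eq_iff_iff] using congrFun₂ h x y
  · simp only [I]; tauto

lemma Zig.sem (Z : Zig a b τ c d π) (r : ∀ u, a u u) (φ : Fm) (ρ ρ' : Rp Θ) (g : ρ.1 ∨ ρ.2.1)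
    (g' : ρ'.1 ∨ ρ'.2.1) (m : Ms V τ φ (I a b τ ρ) (I a b τ ρ')) (x : X) :
    Sem (fun n s t x => ∃ ρ ρ' : Rp Θ, (ρ.1 ∨ ρ.2.1) ∧ (ρ'.1 ∨ ρ'.2.1) ∧ I c d (τ ∘ π) ρ = s ∧
      I c d (τ ∘ π) ρ' = t ∧ V n (I a b τ ρ) (I a b τ ρ') (π x)) φ
      (I c d (τ ∘ π) ρ) (I c d (τ ∘ π) ρ') x ↔ Sem V φ (I a b τ ρ) (I a b τ ρ') (π x) := by
  have S {φ : Fm} {s t : Re W} (m : Ms V τ φ s t) : ∃ S : Θ → Prop, ∀ w,
      Sem V φ s t w ↔ S (τ w) := ⟨fun θ => ∃ u, τ u = θ ∧ Sem V φ s t u, fun w =>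
    ⟨fun h => ⟨w, rfl, h⟩, fun ⟨_, e, h⟩ => (m.iff e).1 h⟩⟩
  induction φ generalizing ρ ρ' x with
  | atom n =>
    refine ⟨fun ⟨σ, σ', i, j, k, l, h⟩ => ?_, fun h => ⟨ρ, ρ', g, g', rfl, rfl, h⟩⟩
    rwa [Z.inj i g k, Z.inj j g' l] at h
  | neg φ ih => exact not_congr (ih _ _ g g' m x)
  | and φ ψ ih ih' => exact and_congr (ih _ _ g g' m.1 x) (ih' _ _ g g' m.2 x)
  | U φ ih =>
    simp only [Sem, ih _ _ g g' m]
    refine ⟨fun h v => ?_, fun h y => h _⟩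
    obtain ⟨y, -, e, -⟩ := Z.z4 v v (.inl (r v))
    exact (Ms.iff (φ := φ) m e).1 (h y)
  | K φ ih => simp only [Sem, ih _ _ g g' m.1]; exact Z.box g m.1.iff x
  | Q φ ih => simp only [Sem, ih _ _ g g' m.1]; exact Z.box g' m.1.iff x
  | R φ ih =>
    simp only [Sem, ih _ _ g g' m.1]
    have := Z.box (ρ := mt ρ ρ') (g.imp .inl .inl) m.1.iff x
    rwa [← I_mt, ← I_mt] at this
  | bang φ ψ ih ih' =>
    have := m.2
    obtain ⟨S, k⟩ := S m.1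
    rw [I_cut ρ S k] at this
    simp only [Sem, ih _ _ g g' m.1]
    rw [I_cut ρ S k, I_cut (τ := τ ∘ π) ρ S fun x => k (π x)]
    exact ih' _ _ (by exact g) (by exact g') this x
  | ask φ ψ ih ih' =>
    have := m.2
    obtain ⟨S, k⟩ := S m.1
    rw [I_cut ρ' S k] at this
    simp only [Sem, ih _ _ g g' m.1]
    rw [I_cut ρ' S k, I_cut (τ := τ ∘ π) ρ' S fun x => k (π x)]
    exact ih' _ _ (by exact g) (by exact g') this x
  | res φ ih =>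
    simp only [Sem, Ms, I_mt] at m ⊢
    exact ih (mt ρ ρ') _ (g.imp .inl .inl) g' m x
  | ref φ ih =>
    simp only [Sem, Ms, I_mt] at m ⊢
    exact ih _ (mt ρ ρ') g (g.imp .inl .inl) m x

end Pool.Agent.H.MP_61152a_lc
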