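import Pool.Agent.H.MP_61152a_lc.B
import Pool.Agent.H.MP_b6c00a_lc.C
import Pool.Agent.Lib.helper21.RE

set_option autoImplicit false

namespace Pool.Agent.H.MP_61152a_lc

open Pool.Agent.H.MP_b6c00a_lc symmDiff

variable {W X Y Θ : Type} {a b : Re W} {τ : W → Θ}

lemma Zig.comp {c d : Re X} {π : X → W} (Z : Zig a b τ c d π) (g : Y ≃ X) :
    Zig a b τ (fun x y => c (g x) (g y)) (fun x y => d (g x) (g y)) (π ∘ g) where
  ec := Z.ec.comap g
  ed := Z.ed.comap g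
  z1 k l h x v i j := let ⟨y, e⟩ := Z.z1 k l h (g x) v i j; ⟨g.symm y, by simpa using e⟩
  z2 k l h x y := Z.z2 k l h (g x) (g y)
  z4 u v h := let ⟨x, y, e⟩ := Z.z4 u v h; ⟨g.symm x, g.symm y, by simpa using e⟩

lemma zig [Finite Θ] (ea : Equivalence a) (eb : Equivalence b) (τ : W → Θ) :
    ∃ n ≤ Nat.card Θ * (2 ^ Nat.card Θ) ^ 4 * 4, ∃ (c d : Re (Fin n)) (π : Fin n → W),
      Zig a b τ c d π := by
  let P (r : Re W) (u : W) : Set Θ := τ '' {v | r u v}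
  have hP {r : Re W} (e : Equivalence r) {u v : W} (h : r u v) : P r u = P r v :=
    congrArg (τ '' ·) (Set.ext fun w => ⟨e.trans (e.symm h), e.trans h⟩)
  have er : Equivalence fun u v => a u v ∧ b u v := ⟨fun u => ⟨ea.refl u, eb.refl u⟩,
    And.imp ea.symm eb.symm, fun h k => ⟨ea.trans h.1 k.1, eb.trans h.2 k.2⟩⟩
  let E (u : W) := (τ u, P a u, P b u, P (fun u v => a u v ∧ b u v) u)
  let X := Set.range E × Set Θ × Bool × Bool
  let π (x : X) : W := x.1.2.choose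
  have hπ (x : X) : E (π x) = x.1 := x.1.2.choose_spec
  let c (x y : X) : Prop := (x.1.1.2.1, x.2.1, x.2.2.1) = (y.1.1.2.1, y.2.1, y.2.2.1)
  let d (x y : X) : Prop :=
    (x.1.1.2.2.1, x.2.1 ∆ x.1.1.2.2.2, x.2.2.2) = (y.1.1.2.2.1, y.2.1 ∆ y.1.1.2.2.2, y.2.2.2)
  have t (x : X) : τ (π x) = x.1.1.1 := congrArg (·.1) (hπ x)
  have p1 (x : X) : P a (π x) = x.1.1.2.1 := congrArg (·.2.1) (hπ x)
  have p2 (x : X) : P b (π x) = x.1.1.2.2.1 := congrArg (·.2.2.1) (hπ x)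
  have p3 (x : X) : P (fun u v => a u v ∧ b u v) (π x) = x.1.1.2.2.2 := congrArg (·.2.2.2) (hπ x)
  have Z : Zig a b τ c d π := by
    refine ⟨⟨fun _ => rfl, Eq.symm, Eq.trans⟩, ⟨fun _ => rfl, Eq.symm, Eq.trans⟩,
      fun k l h x v i j => ?_, fun k l h x y i j => ?_, fun u v h => ?_⟩
    · by_cases hk : k
      · refine ⟨(⟨E v, v, rfl⟩, x.2), fun _ => ?_, fun hl => ?_, t _⟩
        · simp only [c, ← p1 x, E, hP ea (i hk)]
        · simp only [d, ← p2 x, ← p3 x, E, hP eb (j hl), hP er ⟨i hk, j hl⟩]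
      · refine ⟨(⟨E v, v, rfl⟩, (x.2.1 ∆ x.1.1.2.2.2) ∆ (E v).2.2.2, x.2.2), fun a => (hk a).elim,
          fun hl => ?_, t _⟩
        simp only [d, ← p2 x, E, hP eb (j hl), symmDiff_symmDiff_cancel_right]
    · have m {r : Re W} (e : Equivalence r) (h : P r (π x) = P r (π y)) :
          ∃ v, r (π x) v ∧ τ (π y) = τ v :=
        let ⟨v, i, j⟩ := (h ▸ ⟨_, e.refl _, rfl⟩ : τ (π y) ∈ P r (π x)); ⟨v, i, j.symm⟩
      by_cases hk : k <;> by_cases hl : l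
      · have i := i hk
        have j := j hl
        simp only [c, d, Prod.mk.injEq] at i j
        obtain ⟨v, f, g⟩ := m er (by rw [p3, p3]; exact symmDiff_right_injective _ (i.2.1 ▸ j.2.1))
        exact ⟨v, fun _ => f.1, fun _ => f.2, g⟩
      · obtain ⟨v, f, g⟩ := m ea (by rw [p1, p1]; exact congrArg (·.1) (i hk))
        exact ⟨v, fun _ => f, fun a => (hl a).elim, g⟩
      · obtain ⟨v, f, g⟩ := m eb (by rw [p2, p2]; exact congrArg (·.1) (j hl))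
        exact ⟨v, fun a => (hk a).elim, fun _ => f, g⟩
      · exact (h.elim hk hl).elim
    · by_cases i : a u v <;> by_cases j : b u v
      · exact ⟨(⟨E u, u, rfl⟩, ∅, true, true), (⟨E v, v, rfl⟩, ∅, true, true), t _, t _,
          by simp [c, i, E, hP ea i], by simp [d, j, E, hP eb j, hP er ⟨i, j⟩]⟩
      · exact ⟨(⟨E u, u, rfl⟩, ∅, true, true), (⟨E v, v, rfl⟩, ∅, true, false), t _, t _,
          by simp [c, i, E, hP ea i], by simp [d, j]⟩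
      · exact ⟨(⟨E u, u, rfl⟩, (E u).2.2.2, true, true), (⟨E v, v, rfl⟩, (E v).2.2.2, false, true),
          t _, t _, by simp [c, i], by simp [d, j, E, hP eb j]⟩
      · exact (h.elim i j).elim
  refine ⟨_, ?_, _, _, _, Z.comp (Finite.equivFin X).symm⟩
  have := Nat.card_le_card_of_injective _ (Subtype.val_injective (p := (· ∈ Set.range E)))
  have e : Nat.card (Set Θ) = 2 ^ Nat.card Θ :=
    Nat.card_fun.trans (by rw [Nat.card_eq_fintype_card, Fintype.card_prop])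
  have f : Nat.card Bool = 2 := by simp
  simp only [X, Nat.card_prod, e, f] at this ⊢
  exact (Nat.mul_le_mul_right _ this).trans_eq (by ring)

def bd (m : ℕ) : ℕ := 2 ^ (m + 1) * (2 ^ 2 ^ (m + 1)) ^ 4 * 4

lemma sv_iff (φ : Fm) : (∀ σ, Valid (φ.subst σ)) ↔ ∀ n ≤ bd φ.code, ∀ a b : Re (Fin n),
    Equivalence a → Equivalence b → ∀ V w, Sem V φ a b w := by
  refine ⟨fun h n _ a b i j V w => ?_, fun h σ W a b i j V w => ?_⟩
  · choose σ e using fun k => df (V k)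
    have := h σ _ a b i j (fun k (w : Fin n) => k = w) w
    rwa [sat_subst, show (fun k => Sat _ (σ k)) = V by ext k a b w; exact e k a b w] at this
  · rw [sat_subst]
    obtain ⟨Θ, _, τ, l, m⟩ := ms_ex (V := fun n => Sat V (σ n)) φ a b
    obtain ⟨n, k, c, d, π, Z⟩ := zig i j τ
    have e {T : Type} (a b : Re T) (τ : T → Θ) : I a b τ (True, False, fun _ _ => True) = a ∧
        I a b τ (False, True, fun _ _ => True) = b := by constructor <;> ext <;> simp [I]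
    obtain ⟨x, -, f, -⟩ := Z.z4 w w (.inl (i.refl w))
    have := Z.sem (V := fun n => Sat V (σ n)) i.refl φ (True, False, fun _ _ => True)
      (False, True, fun _ _ => True) (.inl trivial) (.inr trivial) (by rwa [(e _ _ _).1, (e _ _ _).2]) x
    rw [(e _ _ _).1, (e _ _ _).2, (e _ _ _).1, (e _ _ _).2] at this
    refine (m.iff f).1 (this.1 (h n (k.trans ?_) c d Z.ec Z.ed _ x))
    unfold bd
    gcongr
    omega

def cb (A : ℕ) : ℕ := ((A + 1) ^ 2 + 1) ^ 2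

def tb (T c z w : ℕ) : Prop := dg 2 T (Nat.pair c (Nat.pair z w)) = 1

lemma tb_ex (A : ℕ) (P : ℕ → ℕ → ℕ → Prop) :
    ∃ T < 2 ^ cb A, ∀ c ≤ A, ∀ z ≤ A, ∀ w ≤ A, tb T c z w ↔ P c z w := by
  classical
  obtain ⟨T, a, b⟩ := dg_ex 2 (cb A) (fun k => if P k.unpair.1 k.unpair.2.unpair.1 k.unpair.2.unpair.2
    then 1 else 0) fun _ _ => by split_ifs <;> omega
  refine ⟨T, a, fun c i z j w k => ?_⟩
  have e := (Nat.pair_lt_max_add_one_sq z w).trans_le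
    (Nat.pow_le_pow_left (Nat.succ_le_succ (max_le j k)) 2)
  rw [tb, b _ ((Nat.pair_lt_max_add_one_sq _ _).trans_le
    (Nat.pow_le_pow_left (Nat.succ_le_succ (max_le (by nlinarith) e.le)) 2))]
  simp

def Up (n z z' : ℕ) (f g : ℕ → ℕ → Prop) : Prop := ∀ u < n, ∀ v < n,
  (tb z' 0 u v ↔ tb z 0 u v ∧ f u v) ∧ (tb z' 1 u v ↔ tb z 1 u v ∧ g u v)

def Cons (m n T : ℕ) : Prop := ∀ q ≤ m, ∀ z < 2 ^ cb (n + 1), ∀ w < n,
  (11 * q + 1 ≤ m → (tb T (11 * q + 1) z w ↔ ¬ tb T q z w)) ∧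
  (11 * q + 2 ≤ m → (tb T (11 * q + 2) z w ↔ tb T q.unpair.1 z w ∧ tb T q.unpair.2 z w)) ∧
  (11 * q + 3 ≤ m → (tb T (11 * q + 3) z w ↔ ∀ v < n, tb T q z v)) ∧
  (11 * q + 4 ≤ m → (tb T (11 * q + 4) z w ↔ ∀ v < n, tb z 0 w v → tb T q z v)) ∧
  (11 * q + 5 ≤ m → (tb T (11 * q + 5) z w ↔ ∀ v < n, tb z 1 w v → tb T q z v)) ∧
  (11 * q + 6 ≤ m → (tb T (11 * q + 6) z w ↔ ∀ v < n, tb z 0 w v ∧ tb z 1 w v → tb T q z v)) ∧
  ∀ y < 2 ^ cb (n + 1),
    (11 * q + 7 ≤ m → Up n z y (fun u v => tb T q.unpair.1 z u ↔ tb T q.unpair.1 z v)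
      (fun _ _ => 0 = 0) → (tb T (11 * q + 7) z w ↔ tb T q.unpair.2 y w)) ∧
    (11 * q + 8 ≤ m → Up n z y (fun _ _ => 0 = 0) (fun u v => tb T q.unpair.1 z u ↔
      tb T q.unpair.1 z v) → (tb T (11 * q + 8) z w ↔ tb T q.unpair.2 y w)) ∧
    (11 * q + 9 ≤ m → Up n z y (tb z 1) (fun _ _ => 0 = 0) →
      (tb T (11 * q + 9) z w ↔ tb T q y w)) ∧
    (11 * q + 10 ≤ m → Up n z y (fun _ _ => 0 = 0) (tb z 0) →
      (tb T (11 * q + 10) z w ↔ tb T q y w))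

def Eqv (n z k : ℕ) : Prop := ∀ u < n, tb z k u u ∧ ∀ v < n, (tb z k u v → tb z k v u) ∧
  ∀ w < n, tb z k u v → tb z k v w → tb z k u w

def Chk (m n : ℕ) : Prop := ∀ T < 2 ^ cb (m + 2 ^ cb (n + 1) + n), Cons m n T →
  ∀ z < 2 ^ cb (n + 1), Eqv n z 0 → Eqv n z 1 → ∀ w < n, tb T m z w

def rl (n z k : ℕ) : Re (Fin n) := fun u v => tb z k u v

lemma eqv_iff {n z k : ℕ} : Eqv n z k ↔ Equivalence (rl n z k) :=
  ⟨fun h => ⟨fun u => (h u u.2).1, fun {u v} => ((h u u.2).2 v v.2).1,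
    fun {u v w} => ((h u u.2).2 v v.2).2 w w.2⟩, fun h u i => ⟨h.refl ⟨u, i⟩, fun v j =>
      ⟨h.symm (x := ⟨u, i⟩) (y := ⟨v, j⟩), fun w k =>
        h.trans (x := ⟨u, i⟩) (y := ⟨v, j⟩) (z := ⟨w, k⟩)⟩⟩⟩

lemma rl_ex {n : ℕ} (a b : Re (Fin n)) : ∃ z < 2 ^ cb (n + 1), rl n z 0 = a ∧ rl n z 1 = b := by
  obtain ⟨z, i, j⟩ := tb_ex (n + 1) fun k u v => ∃ h : u < n ∧ v < n,
    if k = 0 then a ⟨u, h.1⟩ ⟨v, h.2⟩ else b ⟨u, h.1⟩ ⟨v, h.2⟩
  refine ⟨z, i, ?_, ?_⟩ <;> ext u v <;> rw [rl, j _ (by omega) _ (by omega) _ (by omega)] <;> simp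

lemma up_iff {n z y : ℕ} {f g : ℕ → ℕ → Prop} : Up n z y f g ↔
    rl n y 0 = (fun u v => rl n z 0 u v ∧ f u v) ∧ rl n y 1 = fun u v => rl n z 1 u v ∧ g u v := by
  simp only [Up, funext_iff, eq_iff_iff, Fin.forall_iff, rl, forall_and]

lemma code_surj (n : ℕ) : ∃ φ : Fm, φ.code = n := by
  induction n using Nat.strong_induction_on with
  | _ n ih =>
    obtain ⟨q, r, l, rfl⟩ : ∃ q r, r < 11 ∧ n = 11 * q + r :=
      ⟨n / 11, n % 11, Nat.mod_lt _ (by omega), (Nat.div_add_mod n 11).symm⟩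
    rcases r.eq_zero_or_pos with rfl | h
    · exact ⟨.atom q, rfl⟩
    obtain ⟨φ, a⟩ := ih q (by omega)
    obtain ⟨φ₁, d⟩ := ih q.unpair.1 (by have := q.unpair_left_le; omega)
    obtain ⟨φ₂, e⟩ := ih q.unpair.2 (by have := q.unpair_right_le; omega)
    interval_cases r
    exacts [⟨.neg φ, by simp [Fm.code, a]⟩, ⟨.and φ₁ φ₂, by simp [Fm.code, d, e]⟩,
      ⟨.U φ, by simp [Fm.code, a]⟩, ⟨.K φ, by simp [Fm.code, a]⟩, ⟨.Q φ, by simp [Fm.code, a]⟩,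
      ⟨.R φ, by simp [Fm.code, a]⟩, ⟨.bang φ₁ φ₂, by simp [Fm.code, d, e]⟩,
      ⟨.ask φ₁ φ₂, by simp [Fm.code, d, e]⟩, ⟨.res φ, by simp [Fm.code, a]⟩,
      ⟨.ref φ, by simp [Fm.code, a]⟩]

lemma code_inj (φ ψ : Fm) (h : φ.code = ψ.code) : φ = ψ := by
  induction φ generalizing ψ with
  | atom a => cases ψ <;> simp only [Fm.code] at h <;> first | omega | (congr 1; omega)
  | neg φ ih | U φ ih | K φ ih | Q φ ih | R φ ih | res φ ih | ref φ ih =>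
    cases ψ <;> simp only [Fm.code] at h <;> first | omega | exact congrArg _ (ih _ (by omega))
  | and φ φ' ih ih' | bang φ φ' ih ih' | ask φ φ' ih ih' =>
    cases ψ <;> simp only [Fm.code] at h <;> try omega
    rename_i a b
    obtain ⟨d, e⟩ := Nat.pair_eq_pair.1 (show Nat.pair φ.code φ'.code = Nat.pair a.code b.code by omega)
    rw [ih _ d, ih' _ e]

end Pool.Agent.H.MP_61152a_lc
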