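import Pool.Agent.H.MP_61152a_lc.C

set_option autoImplicit false

namespace Pool.Agent.H.MP_61152a_lc

open Pool.Agent.H.MP_b6c00a_lc

lemma chk_iff (φ : Fm) (n : ℕ) : Chk φ.code n ↔ ∀ a b : Re (Fin n),
    Equivalence a → Equivalence b → ∀ V w, Sem V φ a b w := by
  classical
  generalize hm : φ.code = m
  refine ⟨fun h a b i j V w => ?_, fun h T _ C z l i j w k => ?_⟩
  · choose d hd using code_surj
    have hd' (φ : Fm) : d φ.code = φ := code_inj _ _ (hd _)
    obtain ⟨T, l, e⟩ := tb_ex (m + 2 ^ cb (n + 1) + n) fun c z w =>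
      ∃ h : w < n, Sem V (d c) (rl n z 0) (rl n z 1) ⟨w, h⟩
    replace e (φ : Fm) (c : φ.code ≤ m) (z : ℕ) (l : z < 2 ^ cb (n + 1)) (w : ℕ) (k : w < n) :
        tb T φ.code z w ↔ Sem V φ (rl n z 0) (rl n z 1) ⟨w, k⟩ := by
      rw [e _ (by omega) _ (by omega) _ (by omega), hd']; simp [k]
    obtain ⟨z, k, rfl, rfl⟩ := rl_ex a b
    refine (e φ hm.le z k w w.2).1 (hm ▸ h T l (fun q c z l w k => ?_) z k (eqv_iff.2 i)
      (eqv_iff.2 j) w w.2)
    obtain ⟨φ, rfl⟩ := code_surj q
    obtain ⟨φ₁, f⟩ := code_surj φ.code.unpair.1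
    obtain ⟨φ₂, g⟩ := code_surj φ.code.unpair.2
    have := φ.code.unpair_left_le
    have := φ.code.unpair_right_le
    have p : Nat.pair φ₁.code φ₂.code = φ.code := by rw [f, g, Nat.pair_unpair]
    have e1 (u : Fin n) := e φ₁ (by omega) z l u u.2
    have e0 (u : Fin n) := e φ c z l u u.2
    rw [← f, ← g]
    refine ⟨fun u => (e (.neg φ) u z l w k).trans (not_congr (e φ c z l w k).symm), fun u => ?_,
      fun u => (e (.U φ) u z l w k).trans ?_, fun u => (e (.K φ) u z l w k).trans ?_,
      fun u => (e (.Q φ) u z l w k).trans ?_, fun u => (e (.R φ) u z l w k).trans ?_,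
      fun y s => ⟨fun u r => ?_, fun u r => ?_, fun u r => (e (.res φ) u z l w k).trans ?_,
        fun u r => (e (.ref φ) u z l w k).trans ?_⟩⟩
    · rw [e φ₁ (by omega) z l w k, e φ₂ (by omega) z l w k, ← p]
      exact e (.and φ₁ φ₂) (by simp only [Fm.code]; omega) z l w k
    iterate 4 simp only [Sem, ← e0, Fin.forall_iff, rl]
    · obtain ⟨r, t⟩ := up_iff.1 r
      rw [e φ₂ (by omega) y s w k, r, t, ← p]
      simp only [e1, and_true]
      exact e (.bang φ₁ φ₂) (by simp only [Fm.code]; omega) z l w k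
    · obtain ⟨r, t⟩ := up_iff.1 r
      rw [e φ₂ (by omega) y s w k, r, t, ← p]
      simp only [e1, and_true]
      exact e (.ask φ₁ φ₂) (by simp only [Fm.code]; omega) z l w k
    · obtain ⟨r, t⟩ := up_iff.1 r
      rw [e φ c y s w k, r, t]
      simp only [and_true]
      rfl
    · obtain ⟨r, t⟩ := up_iff.1 r
      rw [e φ c y s w k, r, t]
      simp only [and_true, and_comm (a := rl n z 1 _ _)]
      rfl
  · have (a b : Re (Fin n)) : ∃ y < 2 ^ cb (n + 1), (rl n y 0 = a ∧ rl n y 1 = b) ∧
        (rl n z 0 = a ∧ rl n z 1 = b → y = z) := by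
      by_cases h : rl n z 0 = a ∧ rl n z 1 = b
      · exact ⟨z, l, h, fun _ => rfl⟩
      · exact (rl_ex a b).imp fun y k => ⟨k.1, k.2, fun a => (h a).elim⟩
    choose en e1 e2 e3 using this
    have key (φ : Fm) (c : φ.code ≤ m) (a b : Re (Fin n)) (w : Fin n) : tb T φ.code (en a b) w ↔
        Sem (fun p a b w => tb T (11 * p) (en a b) w) φ a b w := by
      have r0 (a b : Re (Fin n)) (u v : Fin n) : tb (en a b) 0 u v ↔ a u v :=
        iff_of_eq (congrFun₂ (e2 a b).1 u v)
      have r1 (a b : Re (Fin n)) (u v : Fin n) : tb (en a b) 1 u v ↔ b u v :=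
        iff_of_eq (congrFun₂ (e2 a b).2 u v)
      induction φ generalizing a b w with
      | atom p => rfl
      | neg φ ih =>
        simp only [Fm.code] at c
        exact ((C _ (by omega) _ (e1 a b) w w.2).1 c).trans (not_congr (ih (by omega) a b w))
      | and φ ψ ih ih' =>
        have := Nat.left_le_pair φ.code ψ.code
        have := Nat.right_le_pair φ.code ψ.code
        simp only [Fm.code] at c
        simpa only [Sem, ← ih (by omega), ← ih' (by omega), Nat.unpair_pair, Fm.code] using
          (C _ (by omega) _ (e1 a b) w w.2).2.1 c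
      | U φ ih =>
        simp only [Fm.code] at c
        simpa only [Sem, ← ih (by omega), Fm.code, Fin.forall_iff] using
          (C _ (by omega) _ (e1 a b) w w.2).2.2.1 c
      | K φ ih =>
        simp only [Fm.code] at c
        simp only [Sem, ← ih (by omega), ← r0 a b, Fin.forall_iff]
        exact (C _ (by omega) _ (e1 a b) w w.2).2.2.2.1 c
      | Q φ ih =>
        simp only [Fm.code] at c
        simp only [Sem, ← ih (by omega), ← r1 a b, Fin.forall_iff]
        exact (C _ (by omega) _ (e1 a b) w w.2).2.2.2.2.1 c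
      | R φ ih =>
        simp only [Fm.code] at c
        simp only [Sem, ← ih (by omega), ← r0 a b, ← r1 a b, Fin.forall_iff]
        exact (C _ (by omega) _ (e1 a b) w w.2).2.2.2.2.2.1 c
      | bang φ ψ ih ih' =>
        have := Nat.left_le_pair φ.code ψ.code
        have := Nat.right_le_pair φ.code ψ.code
        simp only [Fm.code] at c
        refine Iff.trans ?_ (ih' (by omega) _ _ w)
        simpa only [Nat.unpair_pair, Fm.code] using
          ((C _ (by omega) _ (e1 a b) w w.2).2.2.2.2.2.2 _ (e1 _ _)).1 c (up_iff.2 (by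
            simp only [(e2 _ _).1, (e2 _ _).2, Nat.unpair_pair, ih (by omega), and_true, and_self]))
      | ask φ ψ ih ih' =>
        have := Nat.left_le_pair φ.code ψ.code
        have := Nat.right_le_pair φ.code ψ.code
        simp only [Fm.code] at c
        refine Iff.trans ?_ (ih' (by omega) _ _ w)
        simpa only [Nat.unpair_pair, Fm.code] using
          ((C _ (by omega) _ (e1 a b) w w.2).2.2.2.2.2.2 _ (e1 _ _)).2.1 c (up_iff.2 (by
            simp only [(e2 _ _).1, (e2 _ _).2, Nat.unpair_pair, ih (by omega), and_true, and_self]))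
      | res φ ih =>
        simp only [Fm.code] at c
        refine Iff.trans ?_ (ih (by omega) _ _ w)
        exact ((C _ (by omega) _ (e1 a b) w w.2).2.2.2.2.2.2 _ (e1 _ _)).2.2.1 c (up_iff.2 (by
          simp only [(e2 _ _).1, (e2 _ _).2, r1, and_true, and_self]))
      | ref φ ih =>
        simp only [Fm.code] at c
        refine Iff.trans ?_ (ih (by omega) _ _ w)
        exact ((C _ (by omega) _ (e1 a b) w w.2).2.2.2.2.2.2 _ (e1 _ _)).2.2.2 c (up_iff.2 (by
          simp only [(e2 _ _).1, (e2 _ _).2, r0, and_true, and_comm (a := b _ _), and_self]))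
    have := (key φ hm.le _ _ ⟨w, k⟩).2 (h _ _ (eqv_iff.1 i) (eqv_iff.1 j) _ _)
    rwa [e3 _ _ ⟨rfl, rfl⟩, hm] at this

open Pool.Agent.Lib.helper21.PR

attribute [local irreducible] Primrec Computable

section
variable {α : Type} [Primcodable α] {f g h k : α → ℕ}

@[fun_prop] lemma p_cb (a : Primrec f) : Primrec fun x => cb (f x) := by
  unfold cb; fun_prop

@[fun_prop] lemma p_tb (a : Primrec f) (b : Primrec g) (c : Primrec h) (d : Primrec k) :
    Primrec fun x => cd (tb (f x) (g x) (h x) (k x)) := by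
  unfold tb dg; fun_prop

@[fun_prop] lemma p_cons' (a : Primrec f) (b : Primrec g) (c : Primrec h) :
    Primrec fun x => cd (Cons (f x) (g x) (h x)) := by
  unfold Cons Up; fun_prop

@[fun_prop] lemma p_chk (a : Primrec f) (b : Primrec g) : Primrec fun x => cd (Chk (f x) (g x)) := by
  unfold Chk Eqv; fun_prop

end

theorem dec_sv : ComputablePred fun c => ∃ φ : Fm, φ.code = c ∧ ∀ σ, Valid (φ.subst σ) := by
  have : PrimrecPred fun c => ∀ n ≤ bd c, Chk c n := pred (by unfold bd; fun_prop)
  refine this.computablePred.of_eq fun c => ⟨fun h => ?_, ?_⟩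
  · obtain ⟨φ, rfl⟩ := code_surj c
    exact ⟨φ, rfl, (sv_iff φ).2 fun n l => (chk_iff φ n).1 (h n l)⟩
  · rintro ⟨φ, rfl, h⟩ n l
    exact (chk_iff φ n).2 ((sv_iff φ).1 h n l)

end Pool.Agent.H.MP_61152a_lc
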